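import Pool.Agent.Lib.MP_bba6cc_lc.TFin
import Pool.Agent.Lib.MP_bba6cc_lc.AVal

/-!
# Hybrid binder logic over affine connectives: all eight cases

For every finite list `B` of Boolean functions with `[B] = L`:

* with `@` (language `{◇, □, ↓, @}`): over each of the four frame classes satisfiability over `B` and
  satisfiability over the full Boolean base `{∧, ¬}` are polynomial-time many-one reducible to each
  other;
* without `@` (language `{◇, □, ↓}`): over equivalence relations and over transitive frames
  satisfiability is equivalent to `TQBF` under polynomial-time many-one reductions; over all frames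
  and over total frames it is in `P`.

The definitions: Boolean functions (`BFun`), formulas without `@` (`Fm`), models (`Model`), truth
(`Holds`), the frame classes (`FrameClass.Mem`) and the words of formulas (`code`) are in
`Pool/Agent/Lib/MP_bba6cc_lc/Defs.lean`; quantified Boolean formulas (`QF`), `TQBF`, terms over `B`,
`CloneIsAffine` and `satProblem` are in `Pool/Agent/Lib/MP_bba6cc_lc/Qbf.lean`; formulas with `@`
(`Fa`), truth (`HoldsA`), words (`codeA`), `satProblemA` and `boolBase` are in
`Pool/Agent/Lib/MP_bba6cc_lc/ADefs.lean`.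
-/

set_option autoImplicit false

namespace Pool.Agent.Results.MP_bba6cc_lc.AffineBinderClassification

open Pool.Agent.Lib.MP_bba6cc_lc N487b59b3 N68a2faeb N793a5b8e

/-- **The complexity of `F-SAT(O, B)` for `[B] = L`**, `F` one of the classes of all, transitive,
total frames and equivalence relations, `O = {◇, □, ↓, @}` (`satProblemA`) or `O = {◇, □, ↓}`
(`satProblem`). -/
theorem result (B : List BFun) (hB : CloneIsAffine B) :
    (∀ F : FrameClass, ManyOneReducible (satProblemA B F) (satProblemA boolBase F) ∧
      ManyOneReducible (satProblemA boolBase F) (satProblemA B F)) ∧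
    (ManyOneReducible TQBF (satProblem B .er) ∧ ManyOneReducible (satProblem B .er) TQBF) ∧
    (ManyOneReducible TQBF (satProblem B .trans) ∧ ManyOneReducible (satProblem B .trans) TQBF) ∧
    satProblem B .all ∈ P ∧ satProblem B .total ∈ P := by
  have hA : ∀ f ∈ B, IsAffine f := fun f hf => by
    obtain ⟨i, rfl⟩ := List.get_of_mem hf
    exact affine_of_clone hB i
  refine ⟨fun F => ⟨any_le_full B F, full_le_affine hB F⟩, ⟨hard_er hB, er_le_tqbf hA⟩,
    ⟨hard_trans hB, trans_le_tqbf hA⟩, ?_⟩
  have key : ∀ (tot : Bool) (F : FrameClass), (∀ φ : Fm B, SatIn F φ ↔ Sat tot φ) →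
      satProblem B F ∈ P := by
    intro tot F h
    have e : satProblem B F = fun s => validS s && alg tot (tabB B) (toksS s) := by
      funext s
      rw [Bool.eq_iff_iff, sat_lang hA tot s]
      unfold satProblem
      rw [@decide_eq_true_iff _ (_)]
      constructor
      · rintro ⟨φ, h1, h2⟩
        exact ⟨φ, h1, (h φ).mp h2⟩
      · rintro ⟨φ, h1, h2⟩
        exact ⟨φ, h1, (h φ).mpr h2⟩
    rw [e]
    exact sat_mem_P hA tot
  refine ⟨key false .all ?_, key true .total ?_⟩
  · intro φ
    constructor
    · rintro ⟨M, _, g, w, h⟩
      exact ⟨M, by simp, g, w, h⟩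
    · rintro ⟨M, _, g, w, h⟩
      exact ⟨M, trivial, g, w, h⟩
  · intro φ
    constructor
    · rintro ⟨M, hM, g, w, h⟩
      exact ⟨M, fun _ => hM, g, w, h⟩
    · rintro ⟨M, hM, g, w, h⟩
      exact ⟨M, hM rfl, g, w, h⟩

end Pool.Agent.Results.MP_bba6cc_lc.AffineBinderClassification
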