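import Pool.Agent.Lib.MP_bba6cc_lc.AVal

/-!
# Hybrid binder logic with `@`: affine connectives are as hard as all connectives

The language is `O₂ = {◇, □, ↓, @}`.  Over each of the four frame classes (all, transitive, total
frames, equivalence relations):

* for every finite list `C` of Boolean functions, satisfiability over `C` is polynomial-time
  many-one reducible to satisfiability over the full Boolean base `{∧, ¬}`;
* for every finite list `B` with `[B] = L`, satisfiability over `{∧, ¬}` is polynomial-time many-one
  reducible to satisfiability over `B`.

Formulas are given as bit strings; bit strings that do not encode a formula are rejected.  The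
definitions of formulas (`Fa`), truth (`HoldsA`), words (`codeA`), `satProblemA` and `boolBase` are
in `Pool/Agent/Lib/MP_bba6cc_lc/ADefs.lean`, `CloneIsAffine` is in `Qbf.lean`, models and frame
classes are in `Defs.lean` of the same folder.
-/

set_option autoImplicit false

namespace Pool.Agent.Results.MP_bba6cc_lc.AffineBinderReduction

open Pool.Agent.Lib.MP_bba6cc_lc N487b59b3 N68a2faeb N793a5b8e

/-- For every frame class `F` of the four: `F-SAT({◇, □, ↓, @}, C)` reduces to
`F-SAT({◇, □, ↓, @}, {∧, ¬})` for every finite `C`, and the latter reduces to
`F-SAT({◇, □, ↓, @}, B)` for every finite `B` with `[B] = L`. -/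
theorem result (F : FrameClass) :
    (∀ C : List BFun, ManyOneReducible (satProblemA C F) (satProblemA boolBase F)) ∧
    (∀ B : List BFun, CloneIsAffine B →
      ManyOneReducible (satProblemA boolBase F) (satProblemA B F)) :=
  ⟨fun C => any_le_full C F, fun _ hB => full_le_affine hB F⟩

end Pool.Agent.Results.MP_bba6cc_lc.AffineBinderReduction
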