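import Pool.Agent.Lib.MP_bba6cc_lc.Bits

/-!
# Hybrid binder logic without `@` over affine connectives: satisfiability is in `P`

For every finite list `B` of affine Boolean functions, in particular for every finite `B` with
`[B] = L`, satisfiability of `({◇, □, ↓}, B)`-formulas over all frames, and over total frames, is
decidable in polynomial time.  Formulas are given as bit strings; bit strings that do not encode a
formula are rejected.

The definitions of formulas (`Fm`), models (`Model`), truth (`Holds`), the frame classes and the
words of formulas (`code`) are in `Pool/Agent/Lib/MP_bba6cc_lc/Defs.lean`.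
-/

set_option autoImplicit false

namespace Pool.Agent.Results.MP_bba6cc_lc.BinderAffinePolynomial

open Pool.Agent.Lib.MP_bba6cc_lc N487b59b3 N68a2faeb

open Classical in
/-- The decision problem `F-SAT({◇, □, ↓}, B)`: is the bit string the encoding of a formula that
is satisfiable over the class `F`? -/
noncomputable def satProblem (B : List BFun) (F : FrameClass) : DecisionProblem :=
  fun s => decide (∃ φ : Fm B, s = bitEncode (code φ) ∧ SatIn F φ)

/-- Encoding by bit strings is injective, and for a list `B` of affine Boolean functions
satisfiability of `({◇, □, ↓}, B)`-formulas over all frames and over total frames is in `P`. -/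
theorem result (B : List BFun) (hB : ∀ f ∈ B, IsAffine f) :
    (Function.Injective fun φ : Fm B => (bitEncode (code φ) : List Bool)) ∧
      satProblem B .all ∈ P ∧ satProblem B .total ∈ P := by
  have key : ∀ (tot : Bool) (F : FrameClass), (∀ φ : Fm B, SatIn F φ ↔ Sat tot φ) →
      satProblem B F ∈ P := by
    intro tot F h
    have e : satProblem B F = fun s => validS s && alg tot (tabB B) (toksS s) := by
      funext s
      rw [Bool.eq_iff_iff, sat_lang hB tot s]
      unfold satProblem
      rw [@decide_eq_true_iff _ (_)]
      constructor
      · rintro ⟨φ, h1, h2⟩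
        exact ⟨φ, h1, (h φ).mp h2⟩
      · rintro ⟨φ, h1, h2⟩
        exact ⟨φ, h1, (h φ).mpr h2⟩
    rw [e]
    exact sat_mem_P hB tot
  refine ⟨fun φ ψ h => code_injective (bitEncode_inj h), key false .all ?_, key true .total ?_⟩
  · intro φ
    constructor
    · rintro ⟨M, _, g, w, h⟩
      exact ⟨M, by simp, g, w, h⟩
    · rintro ⟨M, _, g, w, h⟩
      exact ⟨M, trivial, g, w, h⟩
  · intro φ
    constructor
    · rintro ⟨M, hM, g, w, h⟩
      exact ⟨M, fun _ => hM, g, w, h⟩
    · rintro ⟨M, hM, g, w, h⟩
      exact ⟨M, hM rfl, g, w, h⟩

end Pool.Agent.Results.MP_bba6cc_lc.BinderAffinePolynomial
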