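import Pool.Agent.Lib.MP_bba6cc_lc.TFin

/-!
# Hybrid binder logic without `@` over affine connectives: equivalence relations, transitive frames

For every finite list `B` of Boolean functions with `[B] = L`, satisfiability of
`({◇, □, ↓}, B)`-formulas over equivalence relations, and over transitive frames, is equivalent,
under polynomial-time many-one reductions, to the truth of quantified Boolean formulas; so both
problems are complete for `PSPACE`.  Formulas are given as bit strings; bit strings that do not
encode a formula are rejected.

The definitions of formulas (`Fm`), models (`Model`), truth (`Holds`), the frame classes and the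
words of formulas (`code`) are in `Pool/Agent/Lib/MP_bba6cc_lc/Defs.lean`; quantified Boolean
formulas (`QF`), `TQBF`, terms over `B`, `CloneIsAffine` and `satProblem` are in
`Pool/Agent/Lib/MP_bba6cc_lc/Qbf.lean`.
-/

set_option autoImplicit false

namespace Pool.Agent.Results.MP_bba6cc_lc.BinderAffinePspace

open Pool.Agent.Lib.MP_bba6cc_lc N487b59b3 N68a2faeb N793a5b8e

/-- If the term functions over `B` of positive arity are exactly the affine ones, then
`ER-SAT({◇, □, ↓}, B)` and `trans-SAT({◇, □, ↓}, B)` are polynomial-time many-one equivalent to
`TQBF`. -/
theorem result (B : List BFun) (hB : CloneIsAffine B) :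
    (ManyOneReducible TQBF (satProblem B .er) ∧ ManyOneReducible (satProblem B .er) TQBF) ∧
    (ManyOneReducible TQBF (satProblem B .trans) ∧ ManyOneReducible (satProblem B .trans) TQBF) := by
  have hA : ∀ f ∈ B, IsAffine f := fun f hf => by
    obtain ⟨i, rfl⟩ := List.get_of_mem hf
    exact affine_of_clone hB i
  exact ⟨⟨hard_er hB, er_le_tqbf hA⟩, ⟨hard_trans hB, trans_le_tqbf hA⟩⟩

end Pool.Agent.Results.MP_bba6cc_lc.BinderAffinePspace
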